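import Pool.Agent.helper61.EX.Strip

set_option autoImplicit false

/-!
# The strip around virtual dimension zero collapses, general form

As `exact_of_strip`, but non-speciality outside the strip is only needed for the systems
`up A + lo B + R`, `A + B = G`, which occur.
-/

namespace Pool.Agent.helper61.EX

open Pool.Agent.helper89.Segre Pool.Agent.SH9

/-- in the strip: lower more points until the system is regular -/
theorem midP {d M' WR : ℕ} (G : Multiset Grp) (R : Multiset ℕ) (hM : ∀ g ∈ G, g.t + 2 ≤ M')
    (hreg : ∀ A B : Multiset Grp, A + B = G → cd (up A + lo B + R) + WR ≤ (tri d).card →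
      Good ℂ (tri d) (up A + lo B + R) (cd (up A + lo B + R)))
    (A : Multiset Grp) : ∀ B : Multiset Grp, A + B = G →
    cd (lo (A + B)) + cd R + WR ≤ (tri d).card →
    (tri d).card < cd (up A) + cd (lo B) + cd R + WR →
    E d (up A + lo B + (R + Multiset.replicate (WR + M') 1)) := by
  induction A using Multiset.induction_on with
  | empty =>
    intro B _ h1 h2
    rw [zero_add] at h1
    have : cd (up 0) = 0 := by simp [up, cd]
    omega
  | cons g A ih =>
    intro B hAB h1 h2
    have hg := hM g (by rw [← hAB]; exact Multiset.mem_add.mpr (Or.inl (Multiset.mem_cons_self _ _)))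
    have hAB' : A + g ::ₘ B = G := by rw [← hAB, Multiset.add_cons, Multiset.cons_add]
    have key : E d (up A + lo (g ::ₘ B) + (R + Multiset.replicate (WR + M') 1)) := by
      rcases Nat.lt_or_ge (tri d).card (cd (up A) + cd (lo (g ::ₘ B)) + cd R + WR) with h3 | h3
      · apply ih (g ::ₘ B) hAB' _ h3
        rw [Multiset.add_cons, ← Multiset.cons_add]
        exact h1
      · rw [← add_assoc]
        have h4 := hreg A (g ::ₘ B) hAB' (by rw [cd_add, cd_add]; exact h3)
        refine E_ones_of_good h4 ?_
        rw [cd_add, cd_add]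
        rw [up_cons, cd_cons] at h2
        rw [lo_cons, cd_cons]
        have := kk_succ g.t
        omega
    rw [lo_cons, Multiset.add_cons, Multiset.cons_add] at key
    rw [up_cons, Multiset.cons_add, Multiset.cons_add]
    exact key.raise (by omega)

/-- **The strip collapses** (general form). -/
theorem exact_of_stripP {d M' WR WE v κ : ℕ} (G : Multiset Grp) (R : Multiset ℕ)
    (hok : ∀ g ∈ G, g.Ok) (hM : ∀ g ∈ G, g.t + 2 ≤ M') (hκ : ∀ g ∈ G, g.σ ≤ κ * g.ρ)
    (hSreg : ∀ A B : Multiset Grp, A + B = G → cd (up A + lo B + R) + WR ≤ (tri d).card →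
      Good ℂ (tri d) (up A + lo B + R) (cd (up A + lo B + R)))
    (hSemp : ∀ A B : Multiset Grp, A + B = G → (tri d).card + WE ≤ cd (up A + lo B + R) →
      E d (up A + lo B + R))
    (hv : (tri d).card ≤ cd (pts G) + cd R + v)
    (hreg : cd (pts G) + cd R + WR ≤ (tri d).card + sg G)
    (hbig : κ * WE + (κ + 1) * (WR + M') ≤ sg G) :
    E d (pts G + R + Multiset.replicate v 1) := by
  rw [add_assoc]
  refine coll_all G _ hok ?_
  intro A B hAB
  have hokA : ∀ g ∈ A, g.Ok := fun g hg => hok g (by rw [← hAB]; exact Multiset.mem_add.mpr (Or.inl hg))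
  have hokB : ∀ g ∈ B, g.Ok := fun g hg => hok g (by rw [← hAB]; exact Multiset.mem_add.mpr (Or.inr hg))
  have hκA : sg A ≤ κ * rh A := by
    have : ∀ g ∈ A, g.σ ≤ κ * g.ρ := fun g hg =>
      hκ g (by rw [← hAB]; exact Multiset.mem_add.mpr (Or.inl hg))
    clear hAB hokA
    induction A using Multiset.induction_on with
    | empty => simp [sg]
    | cons g A ih =>
      have h1 := ih (fun x hx => this x (Multiset.mem_cons_of_mem hx))
      have h2 := this g (Multiset.mem_cons_self _ _)
      rw [sg_cons, rh_cons, mul_add]
      omega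
  have hcA := cd_up hokA
  have hcB := cd_lo hokB
  have hpts : cd (pts G) = cd (pts A) + cd (pts B) := by rw [← hAB, pts_add, cd_add]
  have hsg : sg G = sg A + sg B := by rw [← hAB, sg_add]
  have e1 : up A + lo B + (R + Multiset.replicate v 1 + Multiset.replicate (sg B) 1) =
      up A + lo B + R + Multiset.replicate (v + sg B) 1 := by
    rw [Multiset.replicate_add, add_assoc R, ← add_assoc (up A + lo B)]
  rw [e1]
  rcases Nat.lt_or_ge (tri d).card (cd (up A) + cd (lo B) + cd R + WR) with h1 | h1
  · rcases Nat.lt_or_ge (cd (up A) + cd (lo B) + cd R) ((tri d).card + WE) with h2 | h2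
    · -- in the strip
      have h3 : cd (lo (A + B)) + cd R + WR ≤ (tri d).card := by
        have := cd_lo hok
        rw [hAB]
        omega
      have h4 := midP G R hM hSreg A B hAB h3 h1
      have h5 : WR + M' ≤ v + sg B := by
        by_contra hcon
        push Not at hcon
        have h6 : rh A < sg B + v + WE := by omega
        have h7 : κ * rh A ≤ κ * (sg B + v + WE) := Nat.mul_le_mul_left _ h6.le
        have h8 : κ * (sg B + v) ≤ κ * (WR + M') := Nat.mul_le_mul_left _ (by omega)
        have h9 : κ * (sg B + v + WE) = κ * (sg B + v) + κ * WE := by ring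
        have h10 : (κ + 1) * (WR + M') = κ * (WR + M') + (WR + M') := by ring
        omega
      obtain ⟨k, hk⟩ := Nat.exists_eq_add_of_le h5
      rw [hk, Multiset.replicate_add, ← add_assoc]
      apply E.add
      rw [add_assoc (up A + lo B)]
      exact h4
    · have h3 := hSemp A B hAB (by rw [cd_add, cd_add]; exact h2)
      exact h3.add _
  · have h3 := hSreg A B hAB (by rw [cd_add, cd_add]; exact h1)
    refine E_ones_of_good h3 ?_
    rw [cd_add, cd_add]
    omega

end Pool.Agent.helper61.EX
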