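import Pool.Agent.SH9.CW
import Pool.Agent.helper41.Nag16.Good16

set_option autoImplicit false

/-!
# Four points of multiplicity `m`, and their collision without loss
-/

namespace Pool.Agent.helper61.EX

open Pool.Agent.helper89.Segre Pool.Agent.helper7.Hex Pool.Agent.helper41.Nag16 Pool.Agent.SH9

theorem four0 {m : ℕ} (hm : 1 ≤ m) : E (2 * m - 1) (Multiset.replicate 4 m) := by
  have h1 : Good ℂ (tri (2 * m - 1)) {m, m, m, m} (tri (2 * m - 1)).card := by
    apply good_four (p := 0)
    intro e he
    rw [mem_tri] at he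
    omega
  exact h1

/-- the lengths of the rows of the triangle without its middle row -/
def yf (m b : ℕ) : ℕ := if b < m then 2 * m + 1 - b else if b = m then 0 else 2 * m + 1 - b

lemma box4 (m : ℕ) : Good ℂ (boxl (2 * m + 1) (fun _ => 0) (yf m)) (Multiset.replicate 4 m)
    (boxl (2 * m + 1) (fun _ => 0) (yf m)).card := by
  rw [show Multiset.replicate 4 m = m ::ₘ m ::ₘ m ::ₘ m ::ₘ 0 by rfl]
  -- 1
  refine step_desc (a := 0) (fun b => if b < m then m + 1 else if b = m then 0 else
      2 * m + 1 - b) (by omega) (by omega) ?_ ?_ ?_ ?_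
  · intro i hi; unfold yf; split_ifs <;> omega
  · intro b h1 h2; unfold yf; split_ifs <;> omega
  · intro b h1 h2; unfold yf; split_ifs <;> omega
  -- 2
  refine step_desc (a := 0) (fun b => if b < m then b + 1 else if b = m then 0 else
      2 * m + 1 - b) (by omega) (by omega) ?_ ?_ ?_ ?_
  · intro i hi; split_ifs <;> omega
  · intro b h1 h2; split_ifs <;> omega
  · intro b h1 h2; split_ifs <;> omega
  -- 3
  refine step_asc (a := 0) (fun b => if b < m then 0 else if b = m then 0 else
      2 * m + 1 - b) (by omega) (by omega) ?_ ?_ ?_ ?_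
  · intro i hi; split_ifs <;> omega
  · intro b h1 h2; split_ifs <;> omega
  · intro b h1 h2; split_ifs <;> omega
  -- 4
  refine step_desc (a := m + 1) (fun b => 0) (by omega) ?_ ?_ ?_ ?_ ?_
  · intro b hb; split_ifs <;> omega
  · intro i hi; split_ifs <;> omega
  · intro b h1 h2; split_ifs <;> omega
  · intro b h1 h2; split_ifs <;> omega
  exact good_nil (fun b _ => rfl) 0

theorem four1 (m : ℕ) :
    E (2 * m) (Multiset.replicate 4 m + Multiset.replicate (m + 1) 1) := by
  classical
  have hsub : boxl (2 * m + 1) (fun _ => 0) (yf m) ⊆ tri (2 * m) := by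
    intro e he
    rw [mem_boxl] at he
    rw [mem_tri]
    unfold yf at he
    split_ifs at he <;> omega
  refine E_ones_of_good ((box4 m).mono_left hsub) ?_
  have h1 : tri (2 * m) ⊆ boxl (2 * m + 1) (fun _ => 0) (yf m) ∪
      (Finset.range (m + 1)).image (fun x => (x, m)) := by
    intro e he
    rw [mem_tri] at he
    rw [Finset.mem_union, mem_boxl, Finset.mem_image]
    by_cases h2 : e.2 = m
    · right
      refine ⟨e.1, Finset.mem_range.mpr (by omega), ?_⟩
      rw [← h2]
    · left
      unfold yf
      split_ifs <;> omega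
  have h2 := Finset.card_le_card h1
  have h3 := Finset.card_union_le (boxl (2 * m + 1) (fun _ => 0) (yf m))
    ((Finset.range (m + 1)).image (fun x => (x, m)))
  have h4 := Finset.card_image_le (s := Finset.range (m + 1)) (f := fun x => (x, m))
  rw [Finset.card_range] at h4
  omega

/-- Four points of the same multiplicity collide without loss. -/
theorem coll4 {m d : ℕ} {ms : Multiset ℕ} (hm : 1 ≤ m) (h : E d ((2 * m + 1) ::ₘ ms))
    (h' : E d ((2 * m) ::ₘ (ms + Multiset.replicate m 1))) :
    E d (Multiset.replicate 4 m + ms) := by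
  have e1 : 2 * m - 1 + 2 = 2 * m + 1 := by omega
  have e2 : 2 * m - 1 + 1 = 2 * m := by omega
  refine cw_gen (t := 2 * m - 1) (ρ := m + 1) (σ := m) (by omega) (four0 hm) ?_ ?_ ?_
  · rw [e2]; exact four1 m
  · rw [e1]; exact h
  · rw [e2]; exact h'

end Pool.Agent.helper61.EX
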