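import Pool.Agent.helper61.EX.StripP

set_option autoImplicit false

/-!
# Groups: all lowered for emptiness, all raised for regularity

`good_lower`: lowering a multiplicity from `m + 1` to `m` lowers the rank by at most `m + 1`.
`E_of_lo`, `good_of_up`.
-/

namespace Pool.Agent.helper61.EX

open Pool.Agent.helper89.Segre Pool.Agent.SH9

lemma kr_finite (D : Finset (ℕ × ℕ)) (L : Multiset ((ℂ × ℂ) × ℕ)) :
    Module.Finite ℂ (Kr D L) := Module.Finite.of_injective _ (resD_inj D L)

lemma kr_lower (D : Finset (ℕ × ℕ)) (p : ℂ × ℂ) (m : ℕ) (L : Multiset ((ℂ × ℂ) × ℕ)) :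
    Module.finrank ℂ (Kr D ((p, m) ::ₘ L)) ≤ Module.finrank ℂ (Kr D ((p, m + 1) ::ₘ L)) +
      (m + 1) := by
  classical
  have hf := kr_finite D ((p, m) ::ₘ L)
  have hf' := kr_finite D ((p, m + 1) ::ₘ L)
  let ψ : (ℕ × ℕ → ℂ) →ₗ[ℂ] (Fin (m + 1) → ℂ) :=
    { toFun := fun c i => ∑ e ∈ D, c e *
        (pw p e * ((e.1.choose (i : ℕ) : ℕ) : ℂ) * ((e.2.choose (m - (i : ℕ)) : ℕ) : ℂ))
      map_add' := by
        intro a b; ext i
        simp only [Pi.add_apply, add_mul, Finset.sum_add_distrib]
      map_smul' := by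
        intro a b; ext i
        simp only [Pi.smul_apply, smul_eq_mul, mul_assoc, ← Finset.mul_sum, RingHom.id_apply] }
  let φ := ψ.domRestrict (Kr D ((p, m) ::ₘ L))
  have h1 := LinearMap.finrank_range_add_finrank_ker φ
  have h2 : Module.finrank ℂ (LinearMap.range φ) ≤ m + 1 := by
    refine (Submodule.finrank_le _).trans ?_
    rw [Module.finrank_fintype_fun_eq_card, Fintype.card_fin]
  have h3 : (LinearMap.ker φ).map (Kr D ((p, m) ::ₘ L)).subtype ≤ Kr D ((p, m + 1) ::ₘ L) := by
    rintro c ⟨⟨c', hc'⟩, hker, rfl⟩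
    have hk : ψ c' = 0 := hker
    show c' ∈ _
    rw [mem_Kr_iff] at hc' ⊢
    refine ⟨hc'.1, ?_⟩
    intro x hx ij hij
    rcases Multiset.mem_cons.mp hx with rfl | hx
    · rw [mem_idx] at hij
      simp only at hij
      rcases Nat.lt_or_ge (ij.1 + ij.2) m with h4 | h4
      · exact hc'.2 (p, m) (Multiset.mem_cons_self _ _) ij (by rw [mem_idx]; exact h4)
      · have h5 := congrFun hk ⟨ij.1, by omega⟩
        have h6 : m - ij.1 = ij.2 := by omega
        have h7 : ψ c' ⟨ij.1, by omega⟩ = ∑ e ∈ D, c' e *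
          (pw p e * ((e.1.choose ij.1 : ℕ) : ℂ) * ((e.2.choose (m - ij.1) : ℕ) : ℂ)) := rfl
        rw [h7, h6] at h5
        exact h5
    · exact hc'.2 x (Multiset.mem_cons_of_mem hx) ij hij
  have h4 := Submodule.finrank_mono h3
  have h5 : Module.finrank ℂ ((LinearMap.ker φ).map (Kr D ((p, m) ::ₘ L)).subtype) =
      Module.finrank ℂ (LinearMap.ker φ) :=
    (Submodule.equivMapOfInjective _ (Submodule.subtype_injective _) _).finrank_eq.symm
  omega

/-- lowering a multiplicity by one -/
theorem good_lower {D : Finset (ℕ × ℕ)} {m r : ℕ} {ms : Multiset ℕ}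
    (h : Good ℂ D ((m + 1) ::ₘ ms) (r + (m + 1))) : Good ℂ D (m ::ₘ ms) r := by
  classical
  obtain ⟨L, h1, h2, h3⟩ := h
  obtain ⟨x, hx, hx2, hx3⟩ := (Multiset.map_eq_cons _ _ _ _).mpr h1
  have hL : L = x ::ₘ L.erase x := (Multiset.cons_erase hx).symm
  refine ⟨(x.1, m) ::ₘ L.erase x, by simp [hx3], ?_, ?_⟩
  · intro z hz
    rcases Multiset.mem_cons.mp hz with rfl | hz
    · exact h2 x hx
    · exact h2 z (Multiset.mem_of_mem_erase hz)
  · rw [hasRank_iff] at h3 ⊢
    have h4 := kr_lower D x.1 m (L.erase x)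
    have h5 : (x.1, m + 1) ::ₘ L.erase x = L := by
      have : (x.1, m + 1) = x := by rw [← hx2]
      rw [this, ← hL]
    rw [h5] at h4
    omega

lemma good_le {D : Finset (ℕ × ℕ)} {r r' : ℕ} {ms : Multiset ℕ}
    (h : Good ℂ D ms r) (hr : r' ≤ r) : Good ℂ D ms r' := by
  obtain ⟨L, h1, h2, h3⟩ := h
  exact ⟨L, h1, h2, h3.le hr⟩

/-- a regular system stays regular when groups are lowered -/
theorem good_up_lo {d : ℕ} {X : Multiset ℕ} (A B : Multiset Grp)
    (h : Good ℂ (tri d) (up A + up B + X) (cd (up A + up B + X))) :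
    Good ℂ (tri d) (up A + lo B + X) (cd (up A + lo B + X)) := by
  induction B using Multiset.induction_on generalizing X with
  | empty => simpa [up, lo] using h
  | cons g B ih =>
    rw [up_cons] at h
    have e1 : up A + (g.t + 2) ::ₘ up B + X = up A + up B + ((g.t + 2) ::ₘ X) := by
      rw [← Multiset.singleton_add, ← Multiset.singleton_add]
      abel
    rw [e1] at h
    have h1 := ih h
    have e2 : up A + lo B + (g.t + 2) ::ₘ X = (g.t + 1 + 1) ::ₘ (up A + lo B + X) := by
      rw [← Multiset.singleton_add, ← Multiset.singleton_add]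
      abel
    rw [e2, cd_cons] at h1
    have h2 : kk (g.t + 1 + 1) = kk (g.t + 1) + (g.t + 2) := kk_succ g.t
    have h3 := good_lower (m := g.t + 1) (r := kk (g.t + 1) + cd (up A + lo B + X))
      (good_le h1 (by omega))
    have e3 : up A + lo (g ::ₘ B) + X = (g.t + 1) ::ₘ (up A + lo B + X) := by
      rw [lo_cons, ← Multiset.singleton_add, ← Multiset.singleton_add]
      abel
    rw [e3, cd_cons]
    exact h3

lemma up_add (A B : Multiset Grp) : up (A + B) = up A + up B := by simp [up]
lemma rh_add (A B : Multiset Grp) : rh (A + B) = rh A + rh B := by simp [rh]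

/-- raising all groups -/
lemma E_up_of_lo {d : ℕ} {X : Multiset ℕ} (A : Multiset Grp) (h : E d (lo A + X)) :
    E d (up A + X) := by
  induction A using Multiset.induction_on generalizing X with
  | empty => simpa [up, lo] using h
  | cons g A ih =>
    rw [lo_cons, Multiset.cons_add] at h
    have h1 := E.raise h (m := g.t + 2) (by omega)
    have e1 : (g.t + 2) ::ₘ (lo A + X) = lo A + ((g.t + 2) ::ₘ X) := by
      rw [← Multiset.singleton_add, ← Multiset.singleton_add]
      abel
    rw [e1] at h1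
    have h2 := ih h1
    have e2 : up (g ::ₘ A) + X = up A + ((g.t + 2) ::ₘ X) := by
      rw [up_cons, ← Multiset.singleton_add, ← Multiset.singleton_add]
      abel
    rw [e2]
    exact h2

/-- **Emptiness**: it suffices that the system with all groups lowered is empty. -/
theorem E_of_lo {d : ℕ} (G : Multiset Grp) (R : Multiset ℕ) (hok : ∀ g ∈ G, g.Ok)
    (h : E d (lo G + R)) : E d (pts G + R) := by
  refine coll_all G R hok ?_
  intro A B hAB
  rw [← hAB, lo_add, add_assoc] at h
  have h1 := E_up_of_lo A h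
  have e1 : up A + lo B + (R + Multiset.replicate (sg B) 1) =
      up A + (lo B + R) + Multiset.replicate (sg B) 1 := by abel
  rw [e1]
  exact h1.add _

/-- **Regularity**: it suffices that the system with all groups raised is regular. -/
theorem good_of_up {d : ℕ} (G : Multiset Grp) (R : Multiset ℕ) (hok : ∀ g ∈ G, g.Ok)
    (h : Good ℂ (tri d) (up G + R) (cd (up G + R))) :
    Good ℂ (tri d) (pts G + R) (cd (pts G + R)) := by
  have hN : cd (up G + R) ≤ (tri d).card := by
    obtain ⟨L, _, _, hr⟩ := h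
    have := hasRank_iff.mp hr
    omega
  have hup := cd_up hok
  rw [cd_add] at hN
  have hle : cd (pts G + R) ≤ (tri d).card := by
    rw [cd_add]
    omega
  obtain ⟨v, hv⟩ := Nat.exists_eq_add_of_le hle
  have key : E d (pts G + (R + Multiset.replicate v 1)) := by
    refine coll_all G _ hok ?_
    intro A B hAB
    have hokA : ∀ g ∈ A, g.Ok := fun g hg =>
      hok g (by rw [← hAB]; exact Multiset.mem_add.mpr (Or.inl hg))
    have hokB : ∀ g ∈ B, g.Ok := fun g hg =>
      hok g (by rw [← hAB]; exact Multiset.mem_add.mpr (Or.inr hg))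
    have h1 := good_up_lo (d := d) (X := R) A B (by rw [← up_add, hAB]; exact h)
    have hcA := cd_up hokA
    have hcB := cd_lo hokB
    have hpts : cd (pts G) = cd (pts A) + cd (pts B) := by rw [← hAB, pts_add, cd_add]
    have e1 : up A + lo B + (R + Multiset.replicate v 1 + Multiset.replicate (sg B) 1) =
        up A + lo B + R + Multiset.replicate (v + sg B) 1 := by
      rw [Multiset.replicate_add]
      abel
    rw [e1]
    refine E_ones_of_good h1 ?_
    rw [cd_add] at hv
    rw [cd_add, cd_add]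
    omega
  rw [← add_assoc] at key
  have h2 := good_of_E_ones key
  exact good_le h2 (by omega)

end Pool.Agent.helper61.EX
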