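import Pool.Agent.SH9.LevE
import Pool.Agent.helper61.EX.UpLo

set_option autoImplicit false

/-!
# Groups of equal points for Theorem K

`gL x i`: `9 ^ i` points of multiplicity `x` (levels). `gH x n T`: `n` points of multiplicity `x`,
non-special in every degree (`HX x n`, from Theorem H). `class_groups`: `n` points of multiplicity
`x` = `q` groups which collide into points of one multiplicity `T`, `U ≤ 4 T`, `T ≤ U`, at most one
more group and fewer than `Λ` points.
-/

namespace Pool.Agent.helper61.EX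

open Pool.Agent.helper89.Segre Pool.Agent.SH9

lemma cd_replicate (n x : ℕ) : cd (Multiset.replicate n x) = n * kk x := by
  rw [cd, Multiset.map_replicate, Multiset.sum_replicate, smul_eq_mul]

lemma card_tri' (d : ℕ) : (tri d).card = kk (d + 1) := card_tri d

/-- `n` points of multiplicity `x` are non-special in every degree -/
def HX (x n : ℕ) : Prop :=
  ∀ d : ℕ, Good ℂ (tri d) (Multiset.replicate n x) (min (n * kk x) (tri d).card)

/-- the levels -/
def gL (x i : ℕ) : Grp := ⟨Multiset.replicate (9 ^ i) x, TT x i - 2, rho i, TT x i - rho i⟩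

lemma rho_le_TT {x i : ℕ} (hx : 1 ≤ x) (hc : LCond x (i + 1)) : rho (i + 1) ≤ TT x (i + 1) := by
  have h1 := hc i rfl
  have h2 := le_TT x i
  rw [rho, TT]
  omega

lemma gL_ok {x i : ℕ} (hx : 1 ≤ x) (hc : LCond x (i + 1)) : (gL x (i + 1)).Ok := by
  have h0 := le_TT x i
  have h1 : TT x (i + 1) = 3 * TT x i + 1 := rfl
  have h2 := rho_le_TT hx hc
  refine ⟨?_, ?_, ?_, ?_⟩
  · show E (TT x (i + 1) - 2) (Multiset.replicate (9 ^ (i + 1)) x)
    have h3 := sq0 (i := i) hx (hc i rfl)
    have e1 : TT x (i + 1) - 2 = 3 * TT x i - 1 := by omega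
    rw [e1]
    exact h3
  · show E (TT x (i + 1) - 2 + 1)
      (Multiset.replicate (9 ^ (i + 1)) x + Multiset.replicate (rho (i + 1)) 1)
    have h3 := sq1 (i := i) hx
    have e1 : TT x (i + 1) - 2 + 1 = 3 * TT x i := by omega
    rw [e1]
    exact h3
  · show cd (Multiset.replicate (9 ^ (i + 1)) x) + rho (i + 1) = kk (TT x (i + 1) - 2 + 2)
    have e1 : TT x (i + 1) - 2 + 2 = TT x (i + 1) := by omega
    rw [e1, cd_replicate]
    exact (choose_TT x (i + 1)).symm
  · show rho (i + 1) + (TT x (i + 1) - rho (i + 1)) = TT x (i + 1) - 2 + 2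
    omega

/-- a group which is non-special in every degree -/
def gH (x n T : ℕ) : Grp :=
  ⟨Multiset.replicate n x, T - 2, kk T - n * kk x, T - (kk T - n * kk x)⟩

lemma gH_ok {x n T : ℕ} (hX : HX x n) (hT : 2 ≤ T) (h1 : kk (T - 1) ≤ n * kk x)
    (h2 : n * kk x ≤ kk T) : (gH x n T).Ok := by
  obtain ⟨t, rfl⟩ : ∃ t, T = t + 2 := ⟨T - 2, by omega⟩
  have h3 := kk_succ t
  have e1 : t + 2 - 1 = t + 1 := rfl
  have e2 : t + 2 - 2 = t := rfl
  rw [e1] at h1
  refine ⟨?_, ?_, ?_, ?_⟩
  · show E (t + 2 - 2) (Multiset.replicate n x)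
    rw [e2]
    have h4 := hX t
    rw [card_tri', min_eq_right h1, ← card_tri'] at h4
    exact h4
  · show E (t + 2 - 2 + 1) (Multiset.replicate n x + Multiset.replicate (kk (t + 2) - n * kk x) 1)
    rw [e2]
    have h4 := hX (t + 1)
    have e3 : (tri (t + 1)).card = kk (t + 2) := card_tri' (t + 1)
    rw [e3, min_eq_left h2] at h4
    exact E_ones_of_good h4 (by rw [e3]; omega)
  · show cd (Multiset.replicate n x) + (kk (t + 2) - n * kk x) = kk (t + 2 - 2 + 2)
    rw [e2, cd_replicate]
    omega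
  · show kk (t + 2) - n * kk x + (t + 2 - (kk (t + 2) - n * kk x)) = t + 2 - 2 + 2
    omega

/-- the integer `T` with `kk (T - 1) < c ≤ kk T` -/
lemma exists_T {c : ℕ} (hc : 2 ≤ c) : ∃ T, 2 ≤ T ∧ kk (T - 1) < c ∧ c ≤ kk T := by
  classical
  have hex : ∃ T, c ≤ kk T := ⟨c, by have := two_mul_kk c; nlinarith⟩
  refine ⟨Nat.find hex, ?_, ?_, Nat.find_spec hex⟩
  · by_contra hcon
    have h1 : Nat.find hex ≤ 1 := by omega
    have h2 := Nat.find_spec hex
    have h3 := kk_mono h1
    have h4 := two_mul_kk 1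
    omega
  · have h1 : 1 ≤ Nat.find hex := by
      by_contra hcon
      have h1 : Nat.find hex = 0 := by omega
      have h2 := Nat.find_spec hex
      rw [h1] at h2
      have h4 := two_mul_kk 0
      omega
    have h2 := Nat.find_min hex (m := Nat.find hex - 1) (by omega)
    omega

lemma TT_strict (x i : ℕ) : i ≤ TT x i := by
  induction i with
  | zero => exact Nat.zero_le _
  | succ i ih => rw [TT]; omega

/-- the top group of a class -/
theorem top_group {x M U Λ : ℕ} (hx : 1 ≤ x) (hxM : x ≤ M) (hU : 4 * M ≤ U)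
    (hΛ : ∀ n, Λ ≤ n → HX x n) (hsmall : 8 * x ^ 2 < 3 * U → Λ ≤ kk U / kk x) :
    ∃ (g : Grp) (b : ℕ), g.Ok ∧ g.gs = Multiset.replicate b x ∧ 1 ≤ b ∧ b * kk x ≤ kk U ∧
      g.t + 2 ≤ U ∧ U ≤ 4 * (g.t + 2) := by
  classical
  have hkx : 1 ≤ kk x := by
    have := two_mul_kk x
    nlinarith
  rcases Nat.lt_or_ge (8 * x ^ 2) (3 * U) with h0 | h0
  · -- small multiplicity
    obtain ⟨b, hb⟩ : ∃ b, b = kk U / kk x := ⟨_, rfl⟩
    have h1 : b * kk x ≤ kk U := by rw [hb]; exact Nat.div_mul_le_self _ _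
    have h2 : kk U < b * kk x + kk x := by
      have := Nat.lt_div_mul_add (a := kk U) (b := kk x) (by omega)
      rw [hb]
      omega
    have hkx2 := two_mul_kk x
    have hkU := two_mul_kk U
    have h3 : kk x ≤ x ^ 2 := by nlinarith
    have h4 : 2 ≤ b * kk x := by nlinarith
    obtain ⟨T, hT2, hT3, hT4⟩ := exists_T h4
    have hTU : T ≤ U := by
      by_contra hcon
      have : U ≤ T - 1 := by omega
      have := kk_mono this
      omega
    refine ⟨gH x b T, b, gH_ok (hΛ b (by rw [hb]; exact hsmall h0)) hT2 hT3.le hT4, rfl, ?_, h1, ?_,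
      ?_⟩
    · by_contra hcon
      have : b = 0 := by omega
      subst this
      omega
    · show T - 2 + 2 ≤ U
      omega
    · show U ≤ 4 * (T - 2 + 2)
      have hkT := two_mul_kk T
      by_contra hcon
      have h5 : 4 * T < U := by omega
      nlinarith
  · -- large multiplicity: levels
    have hex : ∃ i, U < TT x i := ⟨U + 1, by have := TT_strict x (U + 1); omega⟩
    obtain ⟨k, hk⟩ : ∃ k, Nat.find hex = k + 2 := by
      have h1 : 2 ≤ Nat.find hex := by
        by_contra hcon
        have h1 : Nat.find hex ≤ 1 := by omega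
        have h2 := Nat.find_spec hex
        have h3 : TT x (Nat.find hex) ≤ TT x 1 := by
          rcases Nat.lt_or_ge (Nat.find hex) 1 with h4 | h4
          · have h5 : Nat.find hex = 0 := by omega
            rw [h5]
            show x ≤ 3 * x + 1
            omega
          · rw [le_antisymm h1 h4]
        have h4 : TT x 1 = 3 * x + 1 := rfl
        have : 3 * x + 1 ≤ U := by
          have : x ≤ M := hxM
          omega
        omega
      exact ⟨Nat.find hex - 2, by omega⟩
    have h1 : U < TT x (k + 2) := by rw [← hk]; exact Nat.find_spec hex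
    have h2 : TT x (k + 1) ≤ U := by
      have := Nat.find_min hex (m := k + 1) (by omega)
      omega
    have h3 : TT x (k + 2) = 3 * TT x (k + 1) + 1 := rfl
    have hTT := two_TT x (k + 1)
    have hLC : LCond x (k + 1) := by
      intro j hj
      have hjk : j = k := by omega
      subst hjk
      have e1 := two_TT x j
      have e2 := eight_rho j
      have e3 : (9 : ℕ) ^ j = 3 ^ j * 3 ^ j := by rw [← mul_pow]; norm_num
      have e4 : 3 ^ (j + 1) * (2 * x + 1) ≤ 2 * U + 1 := by omega
      rw [pow_succ] at e4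
      rw [e3] at e2
      generalize (3 : ℕ) ^ j = P at *
      -- `9 P ≤ 4 (2 x + 1)`
      have e5 : 9 * P ≤ 4 * (2 * x + 1) := by
        by_contra hcon
        push Not at hcon
        have e6 : 4 * (2 * x + 1) * (2 * x + 1) < 9 * P * (2 * x + 1) :=
          Nat.mul_lt_mul_of_pos_right hcon (by omega)
        have e7 : 9 * P * (2 * x + 1) = 3 * (P * 3 * (2 * x + 1)) := by ring
        nlinarith
      have e6 : 9 * (P * P) ≤ 4 * (P * (2 * x + 1)) := by nlinarith
      omega
    refine ⟨gL x (k + 1), 9 ^ (k + 1), gL_ok hx hLC, rfl, Nat.one_le_pow _ _ (by norm_num), ?_, ?_,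
      ?_⟩
    · have e1 : kk (TT x (k + 1)) = 9 ^ (k + 1) * kk x + rho (k + 1) := choose_TT x (k + 1)
      have e2 := kk_mono h2
      omega
    · show TT x (k + 1) - 2 + 2 ≤ U
      have := le_TT x (k + 1)
      have h4 : TT x (k + 1) = 3 * TT x k + 1 := rfl
      have := le_TT x k
      omega
    · show U ≤ 4 * (TT x (k + 1) - 2 + 2)
      have h4 : TT x (k + 1) = 3 * TT x k + 1 := rfl
      have := le_TT x k
      omega

/-- **a class of equal points** -/
theorem class_groups {x M U Λ : ℕ} (hx : 1 ≤ x) (hxM : x ≤ M) (hU : 4 * M ≤ U)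
    (hΛ2 : 2 ≤ Λ) (hΛ : ∀ n, Λ ≤ n → HX x n) (hsmall : 8 * x ^ 2 < 3 * U → Λ ≤ kk U / kk x)
    (n : ℕ) :
    ∃ (g : Grp) (q : ℕ) (G' : Multiset Grp) (s : ℕ), g.Ok ∧ g.t + 2 ≤ U ∧ U ≤ 4 * (g.t + 2) ∧
      (∀ g' ∈ G', g'.Ok ∧ g'.t + 2 ≤ U) ∧ G'.card ≤ 1 ∧ s < Λ ∧
      pts (Multiset.replicate q g + G') + Multiset.replicate s x = Multiset.replicate n x := by
  obtain ⟨g, b, hg, hgs, hb, hbU, hgU, hgU'⟩ := top_group hx hxM hU hΛ hsmall
  have hdm := Nat.div_add_mod n b
  have hlt := Nat.mod_lt n (show 0 < b by omega)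
  have hkx : 1 ≤ kk x := by
    have := two_mul_kk x
    nlinarith
  have hq : pts (Multiset.replicate (n / b) g) = Multiset.replicate (b * (n / b)) x := by
    rw [pts, Multiset.map_replicate, Multiset.sum_replicate, hgs, Multiset.nsmul_replicate]
    congr 1
    ring
  rcases Nat.lt_or_ge (n % b) Λ with h1 | h1
  · refine ⟨g, n / b, 0, n % b, hg, hgU, hgU', by simp, by simp, h1, ?_⟩
    rw [add_zero, hq, ← Multiset.replicate_add, hdm]
  · have h2 : n % b * kk x ≤ kk U := by
      refine le_trans ?_ hbU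
      exact Nat.mul_le_mul_right _ hlt.le
    have h3 : 2 ≤ n % b * kk x := by nlinarith
    obtain ⟨T, hT2, hT3, hT4⟩ := exists_T h3
    have hTU : T ≤ U := by
      by_contra hcon
      have : U ≤ T - 1 := by omega
      have := kk_mono this
      omega
    refine ⟨g, n / b, {gH x (n % b) T}, 0, hg, hgU, hgU', ?_, by simp, by omega, ?_⟩
    · intro g' hg'
      rw [Multiset.mem_singleton] at hg'
      subst hg'
      refine ⟨gH_ok (hΛ _ h1) hT2 hT3.le hT4, ?_⟩
      show T - 2 + 2 ≤ U
      omega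
    · rw [Multiset.replicate_zero, add_zero, pts_add, hq]
      have e1 : pts {gH x (n % b) T} = Multiset.replicate (n % b) x := by
        simp [pts, gH]
      rw [e1, ← Multiset.replicate_add, hdm]

end Pool.Agent.helper61.EX
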