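import Pool.Agent.helper61.EX.Class

set_option autoImplicit false

/-!
# Several classes of equal points

`classes_groups`: the points `∑ x ∈ S, n x` times `x` are cut into groups: for every `x ∈ S` groups
`g x` (`q x` times) which collide into `T x`, `U ≤ 4 T x`, `T x ≤ U`, at most `|S|` more groups and
at most `|S| Λ` points.
-/

namespace Pool.Agent.helper61.EX

open Pool.Agent.helper89.Segre Pool.Agent.SH9

lemma pts_zero : pts 0 = 0 := rfl
lemma up_zero : up 0 = 0 := rfl
lemma lo_zero : lo 0 = 0 := rfl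

lemma pts_sum {ι : Type} (S : Finset ι) (f : ι → Multiset Grp) :
    pts (∑ x ∈ S, f x) = ∑ x ∈ S, pts (f x) := by
  classical
  induction S using Finset.induction_on with
  | empty => rfl
  | insert a S ha ih => rw [Finset.sum_insert ha, Finset.sum_insert ha, pts_add, ih]

lemma up_sum {ι : Type} (S : Finset ι) (f : ι → Multiset Grp) :
    up (∑ x ∈ S, f x) = ∑ x ∈ S, up (f x) := by
  classical
  induction S using Finset.induction_on with
  | empty => rfl
  | insert a S ha ih => rw [Finset.sum_insert ha, Finset.sum_insert ha, up_add, ih]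

lemma lo_sum {ι : Type} (S : Finset ι) (f : ι → Multiset Grp) :
    lo (∑ x ∈ S, f x) = ∑ x ∈ S, lo (f x) := by
  classical
  induction S using Finset.induction_on with
  | empty => rfl
  | insert a S ha ih => rw [Finset.sum_insert ha, Finset.sum_insert ha, lo_add, ih]

lemma cd_sum {ι : Type} (S : Finset ι) (f : ι → Multiset ℕ) :
    cd (∑ x ∈ S, f x) = ∑ x ∈ S, cd (f x) := by
  classical
  induction S using Finset.induction_on with
  | empty => rfl
  | insert a S ha ih => rw [Finset.sum_insert ha, Finset.sum_insert ha, cd_add, ih]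

lemma mem_sum_iff {ι α : Type} (S : Finset ι) (f : ι → Multiset α) (a : α) :
    a ∈ ∑ x ∈ S, f x ↔ ∃ x ∈ S, a ∈ f x := by
  classical
  induction S using Finset.induction_on with
  | empty => simp
  | insert b S hb ih =>
    rw [Finset.sum_insert hb, Multiset.mem_add, ih]
    simp

lemma card_sum' {ι α : Type} (S : Finset ι) (f : ι → Multiset α) :
    Multiset.card (∑ x ∈ S, f x) = ∑ x ∈ S, Multiset.card (f x) := by
  classical
  induction S using Finset.induction_on with
  | empty => simp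
  | insert b S hb ih => rw [Finset.sum_insert hb, Finset.sum_insert hb, Multiset.card_add, ih]

lemma up_replicate (q : ℕ) (g : Grp) : up (Multiset.replicate q g) =
    Multiset.replicate q (g.t + 2) := by
  rw [up, Multiset.map_replicate]

lemma lo_replicate (q : ℕ) (g : Grp) : lo (Multiset.replicate q g) =
    Multiset.replicate q (g.t + 1) := by
  rw [lo, Multiset.map_replicate]

theorem classes_groups {M U Λ : ℕ} (hU : 4 * M ≤ U) (hΛ2 : 2 ≤ Λ)
    (hΛ : ∀ x, 1 ≤ x → x ≤ M → ∀ n, Λ ≤ n → HX x n)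
    (hsmall : ∀ x, 1 ≤ x → x ≤ M → 8 * x ^ 2 < 3 * U → Λ ≤ kk U / kk x)
    (S : Finset ℕ) (hS : ∀ x ∈ S, 1 ≤ x ∧ x ≤ M) (n : ℕ → ℕ) :
    ∃ (g : ℕ → Grp) (q : ℕ → ℕ) (G' : Multiset Grp) (R' : Multiset ℕ),
      (∀ x ∈ S, (g x).Ok ∧ (g x).t + 2 ≤ U ∧ U ≤ 4 * ((g x).t + 2)) ∧
      (∀ g' ∈ G', g'.Ok ∧ g'.t + 2 ≤ U) ∧ G'.card ≤ S.card ∧
      (∀ y ∈ R', y ≤ M) ∧ R'.card ≤ S.card * Λ ∧
      pts ((∑ x ∈ S, Multiset.replicate (q x) (g x)) + G') + R' =
        ∑ x ∈ S, Multiset.replicate (n x) x := by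
  classical
  have key : ∀ x, ∃ (g : Grp) (q : ℕ) (G' : Multiset Grp) (s : ℕ), x ∈ S →
      g.Ok ∧ g.t + 2 ≤ U ∧ U ≤ 4 * (g.t + 2) ∧
      (∀ g' ∈ G', g'.Ok ∧ g'.t + 2 ≤ U) ∧ G'.card ≤ 1 ∧ s < Λ ∧
      pts (Multiset.replicate q g + G') + Multiset.replicate s x =
        Multiset.replicate (n x) x := by
    intro x
    by_cases hx : x ∈ S
    · obtain ⟨g, q, G', s, h⟩ := class_groups (hS x hx).1 (hS x hx).2 hU hΛ2
        (hΛ x (hS x hx).1 (hS x hx).2) (hsmall x (hS x hx).1 (hS x hx).2) (n x)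
      exact ⟨g, q, G', s, fun _ => h⟩
    · exact ⟨⟨0, 0, 0, 0⟩, 0, 0, 0, fun h => absurd h hx⟩
  choose g q G' s h using key
  refine ⟨g, q, ∑ x ∈ S, G' x, ∑ x ∈ S, Multiset.replicate (s x) x, ?_, ?_, ?_, ?_, ?_, ?_⟩
  · intro x hx
    obtain ⟨h1, h2, h3, _⟩ := h x hx
    exact ⟨h1, h2, h3⟩
  · intro g' hg'
    obtain ⟨x, hx, hg'⟩ := (mem_sum_iff S G' g').mp hg'
    exact (h x hx).2.2.2.1 g' hg'
  · rw [card_sum']
    calc ∑ x ∈ S, Multiset.card (G' x) ≤ ∑ _x ∈ S, 1 :=
          Finset.sum_le_sum fun x hx => (h x hx).2.2.2.2.1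
      _ = S.card := by simp
  · intro y hy
    obtain ⟨x, hx, hy⟩ := (mem_sum_iff S _ y).mp hy
    rw [Multiset.eq_of_mem_replicate hy]
    exact (hS x hx).2
  · rw [card_sum']
    calc ∑ x ∈ S, Multiset.card (Multiset.replicate (s x) x) ≤ ∑ _x ∈ S, Λ :=
          Finset.sum_le_sum fun x hx => by
            rw [Multiset.card_replicate]
            exact (h x hx).2.2.2.2.2.1.le
      _ = S.card * Λ := by simp
  · rw [pts_add, pts_sum, pts_sum, ← Finset.sum_add_distrib, ← Finset.sum_add_distrib]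
    refine Finset.sum_congr rfl fun x hx => ?_
    have := (h x hx).2.2.2.2.2.2
    rw [pts_add] at this
    exact this

/-- the sum of the multiplicities after the collisions -/
lemma up_sum_le {U : ℕ} (hU : 36 ≤ U) (G : Multiset Grp)
    (h : ∀ g ∈ G, g.Ok ∧ U ≤ 4 * (g.t + 2)) : U * (up G).sum ≤ 9 * cd (pts G) := by
  induction G using Multiset.induction_on with
  | empty => simp [up, pts, cd]
  | cons g G ih =>
    have h1 := ih (fun x hx => h x (Multiset.mem_cons_of_mem hx))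
    obtain ⟨h2, h3⟩ := h g (Multiset.mem_cons_self _ _)
    have h4 := h2.low
    have h5 := two_mul_kk (g.t + 1)
    rw [up_cons, Multiset.sum_cons, pts_cons, cd_add, mul_add U (g.t + 2),
      mul_add 9 (cd g.gs)]
    have h6 : U * (g.t + 2) ≤ 9 * cd g.gs := by
      have h7 : (g.t + 1) * (g.t + 2) ≤ 2 * cd g.gs := by nlinarith
      have h8 : (U - 4) * (g.t + 2) ≤ 4 * ((g.t + 1) * (g.t + 2)) := by
        have : U - 4 ≤ 4 * (g.t + 1) := by omega
        calc (U - 4) * (g.t + 2) ≤ 4 * (g.t + 1) * (g.t + 2) := Nat.mul_le_mul_right _ this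
          _ = _ := by ring
      obtain ⟨u, rfl⟩ : ∃ u, U = u + 36 := ⟨U - 36, by omega⟩
      have e1 : u + 36 - 4 = u + 32 := by omega
      rw [e1] at h8
      nlinarith
    omega

end Pool.Agent.helper61.EX
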