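import Pool.Agent.helper61.EX.Strip

set_option autoImplicit false

/-!
# Theorem G: many small multiplicities

All `m_i ≤ M`, `∑ m_i ≥ 106 (M + 1)²`: non-special for every degree (given the strip
`WR = 2 M' (M' - 1) + 1`, `WE = 5 kk M'` with `M' = 2 M + 1`).
-/

namespace Pool.Agent.helper61.EX

open Pool.Agent.helper89.Segre Pool.Agent.SH9

/-- four points of multiplicity `k` -/
def g4 (k : ℕ) : Grp := ⟨Multiset.replicate 4 k, 2 * k - 1, k + 1, k⟩

lemma g4_ok {k : ℕ} (hk : 1 ≤ k) : (g4 k).Ok := by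
  refine ⟨?_, ?_, ?_, ?_⟩
  · exact four0 hk
  · show E (2 * k - 1 + 1) (Multiset.replicate 4 k + Multiset.replicate (k + 1) 1)
    have e : 2 * k - 1 + 1 = 2 * k := by omega
    rw [e]
    exact four1 k
  · show cd (Multiset.replicate 4 k) + (k + 1) = kk (2 * k - 1 + 2)
    have e : 2 * k - 1 + 2 = 2 * k + 1 := by omega
    rw [e]
    have h1 := two_mul_kk k
    have h2 := two_mul_kk (2 * k + 1)
    have h3 : cd (Multiset.replicate 4 k) = 4 * kk k := by
      rw [cd, Multiset.map_replicate, Multiset.sum_replicate, smul_eq_mul]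
    rw [h3]
    nlinarith
  · show k + 1 + k = 2 * k - 1 + 2
    omega

lemma pts_replicate_g4 (n k : ℕ) : pts (Multiset.replicate n (g4 k)) =
    Multiset.replicate (4 * n) k := by
  induction n with
  | zero => simp [pts]
  | succ n ih =>
    rw [Multiset.replicate_succ, pts_cons, ih]
    show Multiset.replicate 4 k + _ = _
    rw [← Multiset.replicate_add]
    congr 1
    ring

lemma sg_replicate_g4 (n k : ℕ) : sg (Multiset.replicate n (g4 k)) = n * k := by
  simp [sg, g4, Multiset.map_replicate, Multiset.sum_replicate]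

/-- every multiset splits into groups of four equal numbers and at most three of each value -/
theorem exists_g4 (M : ℕ) : ∀ ms : Multiset ℕ, (∀ x ∈ ms, x ≤ M) →
    ∃ (G : Multiset Grp) (R : Multiset ℕ), (∀ g ∈ G, ∃ k, 1 ≤ k ∧ k ≤ M ∧ g = g4 k) ∧
      (∀ x ∈ R, x ≤ M) ∧ pts G + R = ms ∧ 2 * ms.sum ≤ 8 * sg G + 3 * (M * (M + 1)) := by
  classical
  induction M with
  | zero =>
    intro ms h
    refine ⟨0, ms, by simp, h, by simp [pts], ?_⟩
    have : ms.sum = 0 := Multiset.sum_eq_zero (fun x hx => Nat.le_zero.mp (h x hx))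
    omega
  | succ M ih =>
    intro ms h
    have h1 : ms = Multiset.replicate (ms.count (M + 1)) (M + 1) +
        ms.filter (fun x => ¬ x = M + 1) := by
      conv_lhs => rw [← Multiset.filter_add_not (fun x => x = M + 1) ms]
      rw [Multiset.filter_eq']
    obtain ⟨G, R, hG, hR, hpts, hsum⟩ := ih (ms.filter (fun x => ¬ x = M + 1)) (by
      intro x hx
      rw [Multiset.mem_filter] at hx
      have := h x hx.1
      omega)
    obtain ⟨c, hc⟩ : ∃ c, c = ms.count (M + 1) := ⟨_, rfl⟩
    rw [← hc] at h1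
    have hdm := Nat.div_add_mod c 4
    have hlt := Nat.mod_lt c (show 0 < 4 by norm_num)
    refine ⟨Multiset.replicate (c / 4) (g4 (M + 1)) + G,
      Multiset.replicate (c % 4) (M + 1) + R, ?_, ?_, ?_, ?_⟩
    · intro g hg
      rcases Multiset.mem_add.mp hg with hg | hg
      · exact ⟨M + 1, by omega, le_rfl, Multiset.eq_of_mem_replicate hg⟩
      · obtain ⟨k, h2, h3, h4⟩ := hG g hg
        exact ⟨k, h2, by omega, h4⟩
    · intro x hx
      rcases Multiset.mem_add.mp hx with hx | hx
      · exact (Multiset.eq_of_mem_replicate hx).le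
      · have := hR x hx
        omega
    · rw [pts_add, pts_replicate_g4]
      have e1 : Multiset.replicate (4 * (c / 4)) (M + 1) + pts G +
          (Multiset.replicate (c % 4) (M + 1) + R) =
          Multiset.replicate (4 * (c / 4) + c % 4) (M + 1) + (pts G + R) := by
        rw [Multiset.replicate_add]
        abel
      rw [e1, hdm, hpts, ← h1]
    · have e2 : ms.sum = c * (M + 1) + (ms.filter (fun x => ¬ x = M + 1)).sum := by
        conv_lhs => rw [h1]
        rw [Multiset.sum_add, Multiset.sum_replicate, smul_eq_mul]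
      rw [e2, sg_add, sg_replicate_g4]
      have e3 : c * (M + 1) = 4 * ((c / 4) * (M + 1)) + (c % 4) * (M + 1) := by
        conv_lhs => rw [← hdm]
        ring
      have e4 : (c % 4) * (M + 1) ≤ 3 * (M + 1) := Nat.mul_le_mul_right _ (by omega)
      have e5 : 3 * ((M + 1) * (M + 1 + 1)) = 3 * (M * (M + 1)) + 6 * (M + 1) := by ring
      omega

/-- **Theorem G**, from the strip -/
theorem good_of_strip {d M WR WE : ℕ} {ms : Multiset ℕ} (hS : Strip d (2 * M + 1) WR WE)
    (hM : ∀ x ∈ ms, x ≤ M)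
    (hs : 8 * (WE + 2 * (WR + (2 * M + 1))) + 3 * (M * (M + 1)) ≤ 2 * ms.sum) :
    Good ℂ (tri d) ms (min (tri d).card (cd ms)) := by
  obtain ⟨G, R, hG, hR, hpts, hsum⟩ := exists_g4 M ms hM
  have hok : ∀ g ∈ G, g.Ok := by
    intro g hg
    obtain ⟨k, h1, _, rfl⟩ := hG g hg
    exact g4_ok h1
  have hMM : ∀ g ∈ G, g.t + 2 ≤ 2 * M + 1 := by
    intro g hg
    obtain ⟨k, h1, h2, rfl⟩ := hG g hg
    show 2 * k - 1 + 2 ≤ 2 * M + 1
    omega
  have hκ : ∀ g ∈ G, g.σ ≤ 1 * g.ρ := by
    intro g hg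
    obtain ⟨k, h1, h2, rfl⟩ := hG g hg
    show k ≤ 1 * (k + 1)
    omega
  have hRM : ∀ x ∈ R, x ≤ 2 * M + 1 := fun x hx => by have := hR x hx; omega
  have hmM : ∀ x ∈ ms, x ≤ 2 * M + 1 := fun x hx => by have := hM x hx; omega
  have hcd : cd (pts G) + cd R = cd ms := by rw [← cd_add, hpts]
  rcases Nat.lt_or_ge (tri d).card (cd ms) with h1 | h1
  · -- more conditions than coefficients
    rw [min_eq_left h1.le]
    rcases Nat.lt_or_ge (cd ms) ((tri d).card + WE) with h2 | h2
    · have h3 := exact_of_strip (v := 0) hS G R hok hMM hκ hRM (by omega) (by omega) (by omega)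
      rw [Multiset.replicate_zero, add_zero, hpts] at h3
      exact h3
    · exact hS.emp ms hmM h2
  · rw [min_eq_right h1]
    rcases Nat.lt_or_ge (tri d).card (cd ms + WR) with h2 | h2
    · have h3 := exact_of_strip (v := (tri d).card - cd ms) hS G R hok hMM hκ hRM (by omega)
        (by omega) (by omega)
      rw [hpts] at h3
      obtain ⟨L, h4, h5, h6⟩ := good_of_E_ones h3
      exact ⟨L, h4, h5, h6.le (by omega)⟩
    · exact hS.reg ms hmM h2

end Pool.Agent.helper61.EX
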