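import Mathlib

set_option autoImplicit false

/-!
# Numerics for the assembly of Theorem H

`H = h / 1000`, `a = h / 4`, `200000 + 20000 log (m + 1) ≤ h`, `h m < 106 (m + 1)²`.
With `q = √h`, `x = d + 2`, `e = exp (-3H/40)`: `e q (m + 1) ≤ 1/200`, so in the strip
`x ≤ 2 q (m + 1)`, `e x ≤ 1/100`, then `x ≤ q (m + 64/100)`, and
`x (4 √H + e x) ≤ (7/10) a m`, `x (2 √H + e x) ≤ (4/10) a m`.
-/

namespace Pool.Agent.helper61.EX

open Real

theorem numH_H {h H : ℕ} (hH : H = h / 1000) (hh : 200000 ≤ h) :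
    192 ≤ H ∧ H ≤ h ∧ 200 * H ≤ h / 4 ∧ (h : ℝ) ≤ exp (H / 2) := by
  have h1 : 200 ≤ H := by omega
  refine ⟨by omega, by omega, by omega, ?_⟩
  have h2 : h < 1000 * (H + 1) := by omega
  have h3 : (h : ℝ) < 1000 * (H + 1) := by exact_mod_cast h2
  have h4 : (200 : ℝ) ≤ H := by exact_mod_cast h1
  have h5 := pow_div_factorial_le_exp ((H : ℝ) / 2) (by positivity) 4
  have h6 : ((H : ℝ) / 2) ^ 4 / (Nat.factorial 4 : ℕ) = (H : ℝ) ^ 4 / 384 := by
    norm_num [Nat.factorial]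
    ring
  rw [h6] at h5
  have h7 : (8000000 : ℝ) ≤ (H : ℝ) ^ 3 := by
    have : (200 : ℝ) ^ 3 ≤ (H : ℝ) ^ 3 := pow_le_pow_left₀ (by norm_num) h4 3
    norm_num at this
    exact this
  have h8 : (H : ℝ) ^ 4 = H * (H : ℝ) ^ 3 := by ring
  nlinarith

/-- the error term -/
theorem numH_e {h H m : ℕ} (hH : H = h / 1000)
    (hh : 200000 + 20000 * log (m + 1) ≤ (h : ℝ)) {q : ℝ} (hq : 0 ≤ q) (hq2 : q ^ 2 = h) :
    exp (-(3 * H / 40)) * (q * (m + 1)) ≤ 1 / 200 := by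
  have hm : (0 : ℝ) < (m : ℝ) + 1 := by positivity
  have h2 : h < 1000 * (H + 1) := by omega
  have h3 : (h : ℝ) < 1000 * (H + 1) := by exact_mod_cast h2
  -- the three factors
  have e1 : exp (-(3 * H / 40)) ≤
      exp (3 / 40) * (exp (-(h / 20000 : ℝ)) * exp (-(h / 40000 : ℝ))) := by
    rw [← exp_add, ← exp_add, exp_le_exp]
    linarith
  have e2 : exp (-(h / 20000 : ℝ)) * (m + 1) ≤ 1 / 22000 := by
    have h4 : exp (-(h / 20000 : ℝ)) ≤ exp (-10) * exp (-log (m + 1)) := by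
      rw [← exp_add, exp_le_exp]
      linarith
    have h5 : exp (-log ((m : ℝ) + 1)) * (m + 1) = 1 := by
      rw [exp_neg, exp_log hm]
      field_simp
    have h6 : exp (-10 : ℝ) ≤ 1 / 22000 := by
      rw [exp_neg, ← one_div]
      apply one_div_le_one_div_of_le (by norm_num)
      have h7 : exp (10 : ℝ) = exp 1 ^ 10 := by
        rw [← exp_nat_mul]
        norm_num
      rw [h7]
      have h8 := exp_one_gt_d9
      calc (22000 : ℝ) ≤ 2.7182818283 ^ 10 := by norm_num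
        _ ≤ exp 1 ^ 10 := pow_le_pow_left₀ (by norm_num) h8.le 10
    calc exp (-(h / 20000 : ℝ)) * (m + 1) ≤ (exp (-10) * exp (-log (m + 1))) * (m + 1) :=
          mul_le_mul_of_nonneg_right h4 hm.le
      _ = exp (-10) * (exp (-log (m + 1)) * (m + 1)) := by ring
      _ = exp (-10) := by rw [h5, mul_one]
      _ ≤ 1 / 22000 := h6
  have e3 : exp (-(h / 40000 : ℝ)) * q ≤ 100 := by
    have h4 := add_one_le_exp (h / 40000 : ℝ)
    have h5 : q ≤ 100 * exp (h / 40000 : ℝ) := by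
      rw [← hq2] at h4 ⊢
      nlinarith [sq_nonneg (q - 200)]
    have h6 : exp (-(h / 40000 : ℝ)) * exp (h / 40000 : ℝ) = 1 := by
      rw [← exp_add]
      simp
    calc exp (-(h / 40000 : ℝ)) * q ≤ exp (-(h / 40000 : ℝ)) * (100 * exp (h / 40000 : ℝ)) :=
          mul_le_mul_of_nonneg_left h5 (exp_pos _).le
      _ = 100 * (exp (-(h / 40000 : ℝ)) * exp (h / 40000 : ℝ)) := by ring
      _ = 100 := by rw [h6, mul_one]
  have e4 : exp (3 / 40 : ℝ) ≤ 11 / 10 := by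
    have h4 := abs_exp_sub_one_sub_id_le (x := (3 / 40 : ℝ)) (by rw [abs_of_pos] <;> norm_num)
    have h5 := (abs_le.mp h4).2
    norm_num at h5
    linarith
  have p1 := exp_pos (-(h / 20000 : ℝ))
  have p2 := exp_pos (-(h / 40000 : ℝ))
  have e5 : (exp (-(h / 20000 : ℝ)) * (m + 1)) * (exp (-(h / 40000 : ℝ)) * q) ≤ 1 / 22000 * 100 :=
    mul_le_mul e2 e3 (by positivity) (by norm_num)
  calc exp (-(3 * H / 40)) * (q * (m + 1)) ≤
      (exp (3 / 40) * (exp (-(h / 20000 : ℝ)) * exp (-(h / 40000 : ℝ)))) * (q * (m + 1)) :=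
        mul_le_mul_of_nonneg_right e1 (by positivity)
    _ = exp (3 / 40) * ((exp (-(h / 20000 : ℝ)) * (m + 1)) * (exp (-(h / 40000 : ℝ)) * q)) := by
        ring
    _ ≤ 11 / 10 * (1 / 22000 * 100) := mul_le_mul e4 e5 (by positivity) (by norm_num)
    _ = 1 / 200 := by norm_num

/-- the real inequalities -/
theorem numH_real {x M h s e q : ℝ} (hx : 0 ≤ x) (hM : 2 ≤ M) (hh : 200000 ≤ h)
    (hq : 0 ≤ q) (hq2 : q ^ 2 = h) (hs : 0 ≤ s) (hs2 : 1000 * s ^ 2 ≤ h)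
    (he : 0 ≤ e) (heq : e * (q * (M + 1)) ≤ 1 / 200)
    (h1 : x * (x - 1) < h * (M * (M + 1)) + 2 * (x * (4 * s + e * x)))
    (h2 : h * (M * (M + 1)) < x * (x - 1) + 2 * (x * (2 * s + e * x))) :
    e * x ≤ 1 / 100 ∧ 20 * (x * (4 * s + e * x)) ≤ 14 * ((h / 4 - 1) * M) ∧
      20 * (x * (2 * s + e * x)) ≤ 8 * ((h / 4 - 1) * M) := by
  have hq447 : 447 ≤ q := by
    by_contra hc
    push Not at hc
    nlinarith
  have hsq : s ≤ 317 / 10000 * q := by
    by_contra hc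
    push Not at hc
    nlinarith
  have he100 : e ≤ 1 / 100 := by
    have : 1 ≤ q * (M + 1) := by nlinarith
    nlinarith
  -- coarse bound
  have hx2 : x ≤ 2 * (q * (M + 1)) := by
    by_contra hc
    push Not at hc
    have c1 : 0 < q * (M + 1) := by positivity
    have c2 : h * (M * (M + 1)) ≤ (q * (M + 1)) ^ 2 := by
      rw [← hq2]
      have : 0 ≤ q ^ 2 * (M + 1) := by positivity
      nlinarith
    have c3 : 4 * (q * (M + 1)) ^ 2 < x ^ 2 := by nlinarith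
    have c4 : e * x ^ 2 ≤ 1 / 100 * x ^ 2 := mul_le_mul_of_nonneg_right he100 (by positivity)
    have c5 : x * s ≤ x * (317 / 10000 * q) := mul_le_mul_of_nonneg_left hsq hx
    have c6 : 6 * q ≤ x := by nlinarith
    have c7 : x * q ≤ x * (x / 6) := mul_le_mul_of_nonneg_left (by linarith) hx
    nlinarith
  have hex : e * x ≤ 1 / 100 := by
    calc e * x ≤ e * (2 * (q * (M + 1))) := mul_le_mul_of_nonneg_left hx2 he
      _ = 2 * (e * (q * (M + 1))) := by ring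
      _ ≤ 2 * (1 / 200) := by linarith
      _ = 1 / 100 := by norm_num
  have hxx : x ≤ q * (M + 64 / 100) := by
    by_contra hc
    push Not at hc
    have c5 : x * s ≤ x * (317 / 10000 * q) := mul_le_mul_of_nonneg_left hsq hx
    have c6 : x * (e * x) ≤ x * (1 / 100) := mul_le_mul_of_nonneg_left hex hx
    have c7 : x ≤ x * (q / 447) := by
      have : 1 ≤ q / 447 := by
        rw [le_div_iff₀ (by norm_num)]
        linarith
      nlinarith
    have c8 : x ^ 2 - 26 / 100 * (q * x) < h * (M * (M + 1)) := by nlinarith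
    have c9 : 0 < x - 13 / 100 * q := by nlinarith
    have c10 : q * (M + 51 / 100) < x - 13 / 100 * q := by nlinarith
    have c11 : (q * (M + 51 / 100)) ^ 2 < (x - 13 / 100 * q) ^ 2 := by
      apply pow_lt_pow_left₀ c10 (by positivity) (by norm_num)
    rw [← hq2] at c8
    have c12 : 0 < q ^ 2 := by positivity
    nlinarith
  have c5 : x * s ≤ x * (317 / 10000 * q) := mul_le_mul_of_nonneg_left hsq hx
  have c6 : x * (e * x) ≤ x * (1 / 100) := mul_le_mul_of_nonneg_left hex hx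
  have c7 : x * q ≤ q * (M + 64 / 100) * q := mul_le_mul_of_nonneg_right hxx hq
  have c8 : x ≤ x * (q / 447) := by
    have : 1 ≤ q / 447 := by
      rw [le_div_iff₀ (by norm_num)]
      linarith
    nlinarith
  have c9 : q * (M + 64 / 100) * q = h * (M + 64 / 100) := by
    rw [← hq2]
    ring
  rw [c9] at c7
  have c10 : 200000 * M ≤ h * M := mul_le_mul_of_nonneg_right hh (by linarith)
  have c11 : 2 * h ≤ h * M := by nlinarith
  refine ⟨hex, ?_, ?_⟩
  · nlinarith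
  · nlinarith

theorem numH {h H m d : ℕ} (hH : H = h / 1000)
    (hh : 200000 + 20000 * log (m + 1) ≤ (h : ℝ))
    (hG : h * m < 106 * (m + 1) ^ 2) (hm : 1 ≤ m)
    (h1 : ¬ ((h : ℝ) * ((m + 1).choose 2 : ℕ) +
        (d + 2) * (4 * √H + exp (-(3 * H / 40)) * (d + 2)) ≤ ((d + 2).choose 2 : ℕ)))
    (h2 : ¬ ((((d + 2).choose 2 : ℕ) : ℝ) +
        (d + 2) * (2 * √H + exp (-(3 * H / 40)) * (d + 2)) ≤ h * ((m + 1).choose 2 : ℕ))) :
    (h / 4) * H < 4 * (2 * m) ^ 2 ∧ ((h / 4 : ℕ) : ℝ) ≤ exp (H / 2) ∧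
      exp (-(3 * H / 40)) * (d + 2) ≤ 1 ∧
      10 * (d + 2).choose 2 ≤ 10 * (h * (m + 1).choose 2) + 7 * (h / 4 * m) ∧
      10 * (h * (m + 1).choose 2) ≤ 10 * (d + 2).choose 2 + 4 * (h / 4 * m) := by
  have hlog : 0 ≤ log ((m : ℝ) + 1) := log_nonneg (by linarith [(Nat.cast_nonneg m : (0 : ℝ) ≤ m)])
  have hhR : (200000 : ℝ) ≤ h := by linarith
  have hhN : 200000 ≤ h := by exact_mod_cast hhR
  have hA := numH_H hH hhN
  -- m is large
  have hm1 : h ≤ 106 * (m + 3) := by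
    by_contra hc
    push Not at hc
    nlinarith
  have hm2 : 1800 ≤ m := by omega
  have hM2 : (2 : ℝ) ≤ m := by
    have : 2 ≤ m := by omega
    exact_mod_cast this
  have hHh : 1000 * H ≤ h := by omega
  obtain ⟨q, hq, hq2⟩ : ∃ q : ℝ, 0 ≤ q ∧ q ^ 2 = h := ⟨√h, sqrt_nonneg _, sq_sqrt (by positivity)⟩
  have heq := numH_e hH hh hq hq2
  have hcd : (((d + 2).choose 2 : ℕ) : ℝ) * 2 = ((d : ℝ) + 2) * ((d : ℝ) + 2 - 1) := by
    rw [Nat.cast_choose_two]
    push_cast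
    ring
  have hcm : (((m + 1).choose 2 : ℕ) : ℝ) * 2 = (m : ℝ) * ((m : ℝ) + 1) := by
    rw [Nat.cast_choose_two]
    push_cast
    ring
  push Not at h1 h2
  have hs2 : 1000 * √(H : ℝ) ^ 2 ≤ h := by
    rw [sq_sqrt (by positivity)]
    exact_mod_cast hHh
  have hR := numH_real (x := (d : ℝ) + 2) (M := m) (h := h) (s := √H) (e := exp (-(3 * H / 40)))
    (q := q) (by positivity) hM2 hhR hq hq2 (sqrt_nonneg _) hs2 (exp_pos _).le heq
    (by
      have : (h : ℝ) * (m * ((m : ℝ) + 1)) = 2 * ((h : ℝ) * ((m + 1).choose 2 : ℕ)) := by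
        rw [← hcm]; ring
      linarith)
    (by
      have : (h : ℝ) * (m * ((m : ℝ) + 1)) = 2 * ((h : ℝ) * ((m + 1).choose 2 : ℕ)) := by
        rw [← hcm]; ring
      linarith)
  obtain ⟨hR1, hR2, hR3⟩ := hR
  have ha : (h : ℝ) / 4 - 1 ≤ ((h / 4 : ℕ) : ℝ) := by
    have : h ≤ 4 * (h / 4) + 4 := by omega
    have : (h : ℝ) ≤ 4 * ((h / 4 : ℕ) : ℝ) + 4 := by exact_mod_cast this
    linarith
  have ham : ((h : ℝ) / 4 - 1) * m ≤ ((h / 4 : ℕ) : ℝ) * m :=
    mul_le_mul_of_nonneg_right ha (by positivity)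
  refine ⟨?_, ?_, by linarith, ?_, ?_⟩
  · have k1 : h / 4 ≤ 27 * (m + 3) := by omega
    have k2 : H ≤ (m + 3) / 9 := by omega
    have k3 : 9 * H ≤ m + 3 := by omega
    have k4 : (h / 4) * (9 * H) ≤ (27 * (m + 3)) * (m + 3) := Nat.mul_le_mul k1 k3
    nlinarith
  · refine le_trans ?_ hA.2.2.2
    have : h / 4 ≤ h := Nat.div_le_self _ _
    exact_mod_cast this
  · have : (10 * ((d + 2).choose 2 : ℕ) : ℝ) ≤ 10 * (h * ((m + 1).choose 2 : ℕ)) +
        7 * (((h / 4 : ℕ) : ℝ) * m) := by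
      linarith
    exact_mod_cast this
  · have : (10 * (h * ((m + 1).choose 2 : ℕ)) : ℝ) ≤ 10 * ((d + 2).choose 2 : ℕ) +
        4 * (((h / 4 : ℕ) : ℝ) * m) := by
      linarith
    exact_mod_cast this

end Pool.Agent.helper61.EX
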