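import Pool.Agent.SH9.Final
import Pool.Agent.helper38.EXH.Mid
import Pool.Agent.helper61.EX.NumH
import Pool.Agent.helper1.EX.GR

set_option autoImplicit false

/-!
# Theorem H

`h ≥ 200000 + 20000 log (m + 1)` very general points of multiplicity `m` impose independent
conditions on the forms of degree `d`, or no form of degree `d` passes through them, for **every**
degree `d`.
-/

namespace Pool.Agent.helper61.EX

open MvPolynomial Pool.Agent.helper5.NBS Pool.Agent.helper89.Segre Pool.Agent.SH9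

/-- **Theorem H** -/
theorem mainH (h m d : ℕ) (hh : 200000 + 20000 * Real.log (m + 1) ≤ (h : ℝ)) :
    ∃ Q : MvPolynomial (Fin h × Fin 3) ℂ, Q ≠ 0 ∧ ∀ p : Fin h → Fin 3 → ℂ,
      eval (fun ij : Fin h × Fin 3 => p ij.1 ij.2) Q ≠ 0 →
      Module.finrank ℂ (sys d h (fun _ => m) p) = (d + 2).choose 2 - h * (m + 1).choose 2 := by
  have hsum : ∑ _k : Fin h, (m + 1).choose 2 = h * (m + 1).choose 2 := by simp
  have hmap : (Finset.univ.val.map fun _ : Fin h => m) = Multiset.replicate h m := by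
    rw [Multiset.map_const']
    simp
  rcases Nat.eq_zero_or_pos m with rfl | hm
  · rw [← hsum]
    apply generic_of_good
    simp only [zero_add, Nat.choose_succ_self, Finset.sum_const_zero, Nat.zero_min]
    exact good_zero (K := ℂ) _ _
  rcases Nat.lt_or_ge (h * m) (106 * (m + 1) ^ 2) with hG | hG
  · have hlog : 0 ≤ Real.log ((m : ℝ) + 1) :=
      Real.log_nonneg (by linarith [(Nat.cast_nonneg m : (0 : ℝ) ≤ m)])
    have hhR : (200000 : ℝ) ≤ h := by linarith
    have hhN : 200000 ≤ h := by exact_mod_cast hhR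
    obtain ⟨a1, a2, a3, a4⟩ := numH_H (H := h / 1000) rfl hhN
    by_cases h1 : (h : ℝ) * ((m + 1).choose 2 : ℕ) +
        (d + 2) * (4 * √((h / 1000 : ℕ) : ℝ) +
          Real.exp (-(3 * ((h / 1000 : ℕ) : ℝ) / 40)) * (d + 2)) ≤ ((d + 2).choose 2 : ℕ)
    · exact main (h / 1000) h m d a1 a2 a4 (Or.inl h1)
    by_cases h2 : (((d + 2).choose 2 : ℕ) : ℝ) +
        (d + 2) * (2 * √((h / 1000 : ℕ) : ℝ) +
          Real.exp (-(3 * ((h / 1000 : ℕ) : ℝ) / 40)) * (d + 2)) ≤ h * ((m + 1).choose 2 : ℕ)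
    · exact main (h / 1000) h m d a1 a2 a4 (Or.inr h2)
    obtain ⟨b1, b2, b3, b4, b5⟩ := numH rfl hh hG hm h1 h2
    have e1 : 4 * (h / 4) + h % 4 = h := by omega
    have h3 := Pool.Agent.helper38.EXH.mid_good (r := h % 4) a1 a3 (by omega) hm b1 b2 b3
      (by rw [e1]; exact b4) (by rw [e1]; exact b5)
    rw [e1] at h3
    rw [← hsum]
    apply generic_of_good
    rw [hsum, hmap, ← card_tri]
    exact h3
  · have h1 := Pool.Agent.helper1.EX.mainGR d h m (fun _ => m) (by
      simpa using hG) (fun i hi => absurd hi (by omega))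
    rw [hsum] at h1
    exact h1

end Pool.Agent.helper61.EX
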