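import Pool.Agent.helper61.EX.Four

set_option autoImplicit false

/-!
# The strip around virtual dimension zero collapses

`Strip d M' WR WE`: non-speciality in degree `d` is known for all systems with multiplicities at most
`M'` whose virtual dimension is at least `WR` or at most `-WE`.
`exact_of_strip`: if a system contains disjoint groups which collide without loss, with
`∑ σ` large against the strip, then the system (with `v` simple points, enough conditions) is empty.
-/

namespace Pool.Agent.helper61.EX

open Pool.Agent.helper89.Segre Pool.Agent.SH9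

/-- number of conditions -/
def cd (ms : Multiset ℕ) : ℕ := (ms.map kk).sum

lemma cd_add (a b : Multiset ℕ) : cd (a + b) = cd a + cd b := by simp [cd]
lemma cd_cons (m : ℕ) (a : Multiset ℕ) : cd (m ::ₘ a) = kk m + cd a := by simp [cd]
lemma cd_zero : cd 0 = 0 := by simp [cd]

lemma kk_succ (t : ℕ) : kk (t + 2) = kk (t + 1) + (t + 2) := by
  have h1 := two_mul_kk (t + 2)
  have h2 := two_mul_kk (t + 1)
  nlinarith

/-- non-speciality is known outside a strip -/
structure Strip (d M' WR WE : ℕ) : Prop where
  reg : ∀ ms : Multiset ℕ, (∀ x ∈ ms, x ≤ M') → cd ms + WR ≤ (tri d).card →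
    Good ℂ (tri d) ms (cd ms)
  emp : ∀ ms : Multiset ℕ, (∀ x ∈ ms, x ≤ M') → (tri d).card + WE ≤ cd ms → E d ms

/-- a group of points with the data of its collision -/
structure Grp where
  gs : Multiset ℕ
  t : ℕ
  ρ : ℕ
  σ : ℕ

/-- the group collides without loss into a point of multiplicity `t + 2` -/
structure Grp.Ok (g : Grp) : Prop where
  e0 : E g.t g.gs
  e1 : E (g.t + 1) (g.gs + Multiset.replicate g.ρ 1)
  hc : cd g.gs + g.ρ = kk (g.t + 2)
  hs : g.ρ + g.σ = g.t + 2

lemma Grp.Ok.low {g : Grp} (h : g.Ok) : kk (g.t + 1) + g.σ = cd g.gs := by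
  have h1 := h.hc
  have h2 := h.hs
  have h3 := kk_succ g.t
  omega

/-- raised points -/
def up (A : Multiset Grp) : Multiset ℕ := A.map fun g => g.t + 2
/-- lowered points -/
def lo (A : Multiset Grp) : Multiset ℕ := A.map fun g => g.t + 1
/-- the defects of the lowered points -/
def sg (A : Multiset Grp) : ℕ := (A.map Grp.σ).sum
/-- the excesses of the raised points -/
def rh (A : Multiset Grp) : ℕ := (A.map Grp.ρ).sum
/-- all points of the groups -/
def pts (A : Multiset Grp) : Multiset ℕ := (A.map Grp.gs).sum

lemma up_cons (g : Grp) (A : Multiset Grp) : up (g ::ₘ A) = (g.t + 2) ::ₘ up A := by simp [up]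
lemma lo_cons (g : Grp) (A : Multiset Grp) : lo (g ::ₘ A) = (g.t + 1) ::ₘ lo A := by simp [lo]
lemma sg_cons (g : Grp) (A : Multiset Grp) : sg (g ::ₘ A) = g.σ + sg A := by simp [sg]
lemma rh_cons (g : Grp) (A : Multiset Grp) : rh (g ::ₘ A) = g.ρ + rh A := by simp [rh]
lemma pts_cons (g : Grp) (A : Multiset Grp) : pts (g ::ₘ A) = g.gs + pts A := by simp [pts]
lemma sg_add (A B : Multiset Grp) : sg (A + B) = sg A + sg B := by simp [sg]
lemma pts_add (A B : Multiset Grp) : pts (A + B) = pts A + pts B := by simp [pts]
lemma lo_add (A B : Multiset Grp) : lo (A + B) = lo A + lo B := by simp [lo]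

lemma cd_up {A : Multiset Grp} (h : ∀ g ∈ A, g.Ok) : cd (up A) = cd (pts A) + rh A := by
  induction A using Multiset.induction_on with
  | empty => simp [up, cd, pts, rh]
  | cons g A ih =>
    have h1 := ih (fun x hx => h x (Multiset.mem_cons_of_mem hx))
    have h2 := (h g (Multiset.mem_cons_self _ _)).hc
    rw [up_cons, cd_cons, pts_cons, cd_add, rh_cons]
    omega

lemma cd_lo {A : Multiset Grp} (h : ∀ g ∈ A, g.Ok) : cd (lo A) + sg A = cd (pts A) := by
  induction A using Multiset.induction_on with
  | empty => simp [lo, cd, pts, sg]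
  | cons g A ih =>
    have h1 := ih (fun x hx => h x (Multiset.mem_cons_of_mem hx))
    have h2 := (h g (Multiset.mem_cons_self _ _)).low
    rw [lo_cons, cd_cons, pts_cons, cd_add, sg_cons]
    omega

/-- all groups collide, each point is raised or lowered -/
theorem coll_all {d : ℕ} (G : Multiset Grp) : ∀ (R : Multiset ℕ), (∀ g ∈ G, g.Ok) →
    (∀ A B : Multiset Grp, A + B = G → E d (up A + lo B + (R + Multiset.replicate (sg B) 1))) →
    E d (pts G + R) := by
  induction G using Multiset.induction_on with
  | empty =>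
    intro R _ h
    have := h 0 0 (by simp)
    simpa [up, lo, sg, pts] using this
  | cons g G ih =>
    intro R hok h
    have hg := hok g (Multiset.mem_cons_self _ _)
    have hG : ∀ x ∈ G, x.Ok := fun x hx => hok x (Multiset.mem_cons_of_mem hx)
    rw [pts_cons, add_assoc]
    refine cw_gen (t := g.t) (ρ := g.ρ) (σ := g.σ) (by have := hg.hs; omega) hg.e0 hg.e1 ?_ ?_
    · rw [← Multiset.add_cons]
      refine ih _ hG ?_
      intro A B hAB
      have h1 := h (g ::ₘ A) B (by rw [Multiset.cons_add, hAB])
      rw [up_cons, Multiset.cons_add, Multiset.cons_add] at h1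
      rw [Multiset.cons_add, Multiset.add_cons]
      exact h1
    · have e1 : (g.t + 1) ::ₘ (pts G + R + Multiset.replicate g.σ 1) =
          pts G + ((g.t + 1) ::ₘ (R + Multiset.replicate g.σ 1)) := by
        rw [Multiset.add_cons, add_assoc]
      rw [e1]
      refine ih _ hG ?_
      intro A B hAB
      have h1 := h A (g ::ₘ B) (by rw [Multiset.add_cons, hAB])
      rw [lo_cons, sg_cons, Multiset.replicate_add, Multiset.add_cons, Multiset.cons_add] at h1
      rw [Multiset.cons_add, Multiset.add_cons, add_assoc R]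
      exact h1

/-- in the strip: lower more points until the system is regular -/
theorem mid {d M' WR WE : ℕ} (hS : Strip d M' WR WE) (R : Multiset ℕ) (hR : ∀ x ∈ R, x ≤ M')
    (A : Multiset Grp) : ∀ B : Multiset Grp, (∀ g ∈ A, g.t + 2 ≤ M') → (∀ g ∈ B, g.t + 2 ≤ M') →
    cd (lo (A + B)) + cd R + WR ≤ (tri d).card →
    (tri d).card < cd (up A) + cd (lo B) + cd R + WR →
    E d (up A + lo B + (R + Multiset.replicate (WR + M') 1)) := by
  induction A using Multiset.induction_on with
  | empty =>
    intro B _ _ h1 h2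
    rw [zero_add] at h1
    have : cd (up 0) = 0 := by simp [up, cd]
    omega
  | cons g A ih =>
    intro B hA hB h1 h2
    have hg := hA g (Multiset.mem_cons_self _ _)
    have hA' : ∀ x ∈ A, x.t + 2 ≤ M' := fun x hx => hA x (Multiset.mem_cons_of_mem hx)
    have hB' : ∀ x ∈ g ::ₘ B, x.t + 2 ≤ M' := by
      intro x hx
      rcases Multiset.mem_cons.mp hx with rfl | hx
      · exact hg
      · exact hB x hx
    have key : E d (up A + lo (g ::ₘ B) + (R + Multiset.replicate (WR + M') 1)) := by
      rcases Nat.lt_or_ge (tri d).card (cd (up A) + cd (lo (g ::ₘ B)) + cd R + WR) with h3 | h3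
      · apply ih (g ::ₘ B) hA' hB' _ h3
        rw [Multiset.add_cons, ← Multiset.cons_add]
        exact h1
      · rw [← add_assoc]
        have h4 := hS.reg (up A + lo (g ::ₘ B) + R) (by
          intro x hx
          rcases Multiset.mem_add.mp hx with hx | hx
          · rcases Multiset.mem_add.mp hx with hx | hx
            · obtain ⟨y, hy, rfl⟩ := Multiset.mem_map.mp hx
              exact hA' y hy
            · obtain ⟨y, hy, rfl⟩ := Multiset.mem_map.mp hx
              have := hB' y hy
              omega
          · exact hR x hx) (by rw [cd_add, cd_add]; exact h3)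
        refine E_ones_of_good h4 ?_
        rw [cd_add, cd_add]
        rw [up_cons, cd_cons] at h2
        rw [lo_cons, cd_cons]
        have := kk_succ g.t
        omega
    rw [lo_cons, Multiset.add_cons, Multiset.cons_add] at key
    rw [up_cons, Multiset.cons_add, Multiset.cons_add]
    exact key.raise (by omega)

/-- **The strip collapses.** -/
theorem exact_of_strip {d M' WR WE v κ : ℕ} (hS : Strip d M' WR WE) (G : Multiset Grp)
    (R : Multiset ℕ) (hok : ∀ g ∈ G, g.Ok) (hM : ∀ g ∈ G, g.t + 2 ≤ M')
    (hκ : ∀ g ∈ G, g.σ ≤ κ * g.ρ) (hR : ∀ x ∈ R, x ≤ M')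
    (hv : (tri d).card ≤ cd (pts G) + cd R + v)
    (hreg : cd (pts G) + cd R + WR ≤ (tri d).card + sg G)
    (hbig : κ * WE + (κ + 1) * (WR + M') ≤ sg G) :
    E d (pts G + R + Multiset.replicate v 1) := by
  rw [add_assoc]
  refine coll_all G _ hok ?_
  intro A B hAB
  have hokA : ∀ g ∈ A, g.Ok := fun g hg => hok g (by rw [← hAB]; exact Multiset.mem_add.mpr (Or.inl hg))
  have hokB : ∀ g ∈ B, g.Ok := fun g hg => hok g (by rw [← hAB]; exact Multiset.mem_add.mpr (Or.inr hg))
  have hMA : ∀ g ∈ A, g.t + 2 ≤ M' := fun g hg =>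
    hM g (by rw [← hAB]; exact Multiset.mem_add.mpr (Or.inl hg))
  have hMB : ∀ g ∈ B, g.t + 2 ≤ M' := fun g hg =>
    hM g (by rw [← hAB]; exact Multiset.mem_add.mpr (Or.inr hg))
  have hκA : sg A ≤ κ * rh A := by
    have : ∀ g ∈ A, g.σ ≤ κ * g.ρ := fun g hg =>
      hκ g (by rw [← hAB]; exact Multiset.mem_add.mpr (Or.inl hg))
    clear hAB hokA hMA
    induction A using Multiset.induction_on with
    | empty => simp [sg]
    | cons g A ih =>
      have h1 := ih (fun x hx => this x (Multiset.mem_cons_of_mem hx))
      have h2 := this g (Multiset.mem_cons_self _ _)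
      rw [sg_cons, rh_cons, mul_add]
      omega
  have hcA := cd_up hokA
  have hcB := cd_lo hokB
  have hpts : cd (pts G) = cd (pts A) + cd (pts B) := by rw [← hAB, pts_add, cd_add]
  have hsg : sg G = sg A + sg B := by rw [← hAB, sg_add]
  have hmem : ∀ x ∈ up A + lo B + R, x ≤ M' := by
    intro x hx
    rcases Multiset.mem_add.mp hx with hx | hx
    · rcases Multiset.mem_add.mp hx with hx | hx
      · obtain ⟨y, hy, rfl⟩ := Multiset.mem_map.mp hx
        exact hMA y hy
      · obtain ⟨y, hy, rfl⟩ := Multiset.mem_map.mp hx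
        have := hMB y hy
        omega
    · exact hR x hx
  have e1 : up A + lo B + (R + Multiset.replicate v 1 + Multiset.replicate (sg B) 1) =
      up A + lo B + R + Multiset.replicate (v + sg B) 1 := by
    rw [Multiset.replicate_add, add_assoc R, ← add_assoc (up A + lo B)]
  rw [e1]
  rcases Nat.lt_or_ge (tri d).card (cd (up A) + cd (lo B) + cd R + WR) with h1 | h1
  · rcases Nat.lt_or_ge (cd (up A) + cd (lo B) + cd R) ((tri d).card + WE) with h2 | h2
    · -- in the strip
      have h3 : cd (lo (A + B)) + cd R + WR ≤ (tri d).card := by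
        have := cd_lo hok
        rw [hAB]
        omega
      have h4 := mid hS R hR A B hMA hMB h3 h1
      have h5 : WR + M' ≤ v + sg B := by
        by_contra hcon
        push Not at hcon
        have h6 : rh A < sg B + v + WE := by omega
        have h7 : κ * rh A ≤ κ * (sg B + v + WE) := Nat.mul_le_mul_left _ h6.le
        have h8 : κ * (sg B + v) ≤ κ * (WR + M') := Nat.mul_le_mul_left _ (by omega)
        have h9 : κ * (sg B + v + WE) = κ * (sg B + v) + κ * WE := by ring
        have h10 : (κ + 1) * (WR + M') = κ * (WR + M') + (WR + M') := by ring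
        omega
      obtain ⟨k, hk⟩ := Nat.exists_eq_add_of_le h5
      rw [hk, Multiset.replicate_add, ← add_assoc]
      apply E.add
      rw [add_assoc (up A + lo B)]
      exact h4
    · have h3 := hS.emp (up A + lo B + R) hmem (by rw [cd_add, cd_add]; exact h2)
      exact h3.add _
  · have h3 := hS.reg (up A + lo B + R) hmem (by rw [cd_add, cd_add]; exact h1)
    refine E_ones_of_good h3 ?_
    rw [cd_add, cd_add]
    omega

end Pool.Agent.helper61.EX
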